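import Pool.Agent.W64.PF.PosGen
import Pool.Agent.W207.PF.SpecB

/-!
# Montgomery's function is nonnegative
-/

set_option autoImplicit false

open MeasureTheory Set
open scoped BigOperators

namespace Pool.Agent.W64.PF

open W207.PR (ZT mz X)

theorem posThm : W207.PF.S_POS := by
  intro T hT
  refine ⟨?_, ?_, ?_⟩
  · unfold W207.PF.FF
    refine Continuous.div_const ?_ _
    refine continuous_finsetSum _ fun s _ => continuous_finsetSum _ fun s' _ => ?_
    refine Continuous.mul continuous_const ?_
    refine Continuous.mul ?_ continuous_const
    fun_prop
  · intro a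
    unfold W207.PF.FF
    congr 1
    refine Finset.sum_congr rfl fun s _ => Finset.sum_congr rfl fun s' _ => ?_
    rw [neg_mul, neg_mul, Real.cos_neg]
  · intro a
    unfold W207.PF.FF
    have hX : 0 < X T := by
      unfold W207.PR.X
      have h1 := Real.pi_pos
      have h2 : 0 < Real.log T := Real.log_pos (by linarith)
      positivity
    refine div_nonneg ?_ hX.le
    exact pos (ZT T) mz (fun s => s.im) (a * Real.log T)

end Pool.Agent.W64.PF
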