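import Mathlib

/-!
# Positivity of the weighted pair sum
-/

set_option autoImplicit false

open MeasureTheory Set

namespace Pool.Agent.W64.PF

theorem key (d : ℝ) : IntegrableOn (fun t : ℝ => Real.exp (-2 * t) * Real.cos (t * d)) (Ioi 0) ∧
    ∫ t in Ioi (0 : ℝ), Real.exp (-2 * t) * Real.cos (t * d) = 2 / (4 + d ^ 2) := by
  have ha : (-2 + d * Complex.I : ℂ).re < 0 := by simp
  have h1 := integrableOn_exp_mul_complex_Ioi ha 0
  have h2 := integral_exp_mul_complex_Ioi ha 0
  have h3 : ∀ t : ℝ, (Complex.exp ((-2 + d * Complex.I) * t)).re =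
      Real.exp (-2 * t) * Real.cos (t * d) := by
    intro t
    rw [Complex.exp_re]
    congr 1
    · congr 1
      simp
    · congr 1
      simp
      ring
  constructor
  · have h4 := h1.re
    refine h4.congr (Filter.Eventually.of_forall fun t => ?_)
    exact h3 t
  · have h4 := integral_re h1
    rw [h2] at h4
    have h5 : ∫ t in Ioi (0 : ℝ), Real.exp (-2 * t) * Real.cos (t * d) =
        ∫ t in Ioi (0 : ℝ), RCLike.re (Complex.exp ((-2 + d * Complex.I) * t)) :=
      integral_congr_ae (Filter.Eventually.of_forall fun t => (h3 t).symm)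
    rw [h5, h4]
    have h6 : (-2 + d * Complex.I : ℂ) ≠ 0 := by
      intro h
      rw [h] at ha
      simp at ha
    have h7 : -Complex.exp ((-2 + d * Complex.I) * ((0 : ℝ) : ℂ)) / (-2 + d * Complex.I) =
        (((2 / (4 + d ^ 2) : ℝ) : ℂ) + ((d / (4 + d ^ 2) : ℝ) : ℂ) * Complex.I) := by
      have h8 : (4 + (d : ℂ) ^ 2) ≠ 0 := by
        have : (4 + d ^ 2 : ℝ) ≠ 0 := by positivity
        exact_mod_cast this
      rw [div_eq_iff h6]
      push_cast
      rw [mul_zero, Complex.exp_zero]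
      field_simp
      ring_nf
      rw [Complex.I_sq]
      ring
    rw [h7]
    change (((2 / (4 + d ^ 2) : ℝ) : ℂ) + ((d / (4 + d ^ 2) : ℝ) : ℂ) * Complex.I).re = _
    rw [Complex.add_re, Complex.ofReal_re, Complex.re_ofReal_mul, Complex.I_re, mul_zero, add_zero]

theorem sq_sum (Z : Finset ℂ) (m x : ℂ → ℝ) (B : ℝ) :
    ∑ s ∈ Z, ∑ s' ∈ Z, m s * m s' * Real.cos (B * (x s - x s')) =
      (∑ s ∈ Z, m s * Real.cos (B * x s)) ^ 2 + (∑ s ∈ Z, m s * Real.sin (B * x s)) ^ 2 := by
  rw [sq, sq, Finset.sum_mul_sum, Finset.sum_mul_sum, ← Finset.sum_add_distrib]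
  refine Finset.sum_congr rfl fun s _ => ?_
  rw [← Finset.sum_add_distrib]
  refine Finset.sum_congr rfl fun s' _ => ?_
  rw [mul_sub, Real.cos_sub]
  ring

theorem pos (Z : Finset ℂ) (m x : ℂ → ℝ) (A : ℝ) :
    0 ≤ ∑ s ∈ Z, ∑ s' ∈ Z, m s * m s' *
      (Real.cos (A * (x s - x s')) * (4 / (4 + (x s - x s') ^ 2))) := by
  have h1 : ∀ s s' : ℂ, m s * m s' * (Real.cos (A * (x s - x s')) *
      (4 / (4 + (x s - x s') ^ 2))) = ∫ t in Ioi (0 : ℝ), 2 * (m s * m s' *
        Real.cos (A * (x s - x s'))) * (Real.exp (-2 * t) * Real.cos (t * (x s - x s'))) := by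
    intro s s'
    rw [integral_const_mul, (key _).2]
    ring
  have h2 : ∑ s ∈ Z, ∑ s' ∈ Z, m s * m s' *
      (Real.cos (A * (x s - x s')) * (4 / (4 + (x s - x s') ^ 2))) =
      ∫ t in Ioi (0 : ℝ), ∑ s ∈ Z, ∑ s' ∈ Z, 2 * (m s * m s' *
        Real.cos (A * (x s - x s'))) * (Real.exp (-2 * t) * Real.cos (t * (x s - x s'))) := by
    rw [integral_finsetSum]
    · refine Finset.sum_congr rfl fun s _ => ?_
      rw [integral_finsetSum]
      · refine Finset.sum_congr rfl fun s' _ => ?_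
        exact h1 s s'
      · intro s' _
        exact (key _).1.const_mul _
    · intro s _
      refine integrable_finsetSum _ fun s' _ => ?_
      exact (key _).1.const_mul _
  rw [h2]
  refine setIntegral_nonneg measurableSet_Ioi fun t _ => ?_
  have h3 : ∑ s ∈ Z, ∑ s' ∈ Z, 2 * (m s * m s' *
        Real.cos (A * (x s - x s'))) * (Real.exp (-2 * t) * Real.cos (t * (x s - x s'))) =
      Real.exp (-2 * t) * (∑ s ∈ Z, ∑ s' ∈ Z, m s * m s' * Real.cos ((A + t) * (x s - x s')) +
        ∑ s ∈ Z, ∑ s' ∈ Z, m s * m s' * Real.cos ((A - t) * (x s - x s'))) := by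
    rw [← Finset.sum_add_distrib, Finset.mul_sum]
    refine Finset.sum_congr rfl fun s _ => ?_
    rw [← Finset.sum_add_distrib, Finset.mul_sum]
    refine Finset.sum_congr rfl fun s' _ => ?_
    rw [add_mul, sub_mul, Real.cos_add, Real.cos_sub]
    ring
  rw [h3, sq_sum, sq_sum]
  positivity

end Pool.Agent.W64.PF
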